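import Pool.Agent.H69.LQ.Lib
import Pool.Agent.H69.LNN.Targets

/-! Row PE of the board `lnn_modules`: the profile in the logarithmic variable. -/

set_option autoImplicit false

open MeasureTheory Metric Set
open scoped ENNReal
open Pool.Agent.H85.LK (E adm lam Ann)
open Pool.Agent.H69.LQ Pool.Agent.H69.LNN

namespace Pool.Agent.H11.LNN

theorem pf_PE (hPH : T_PH) (hPV : T_PV) : T_PE := by
  intro N L hN hF
  obtain ⟨hp, _, hq⟩ := hPH N L (by omega)
  obtain ⟨hpos, hp1, hd1, _⟩ := hPV N L (by omega) hF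
  set c : ℝ := (N : ℝ) / 2 - 1 with hc
  have hcast : ((N - 1 : ℕ) : ℝ) = (N : ℝ) - 1 := by
    rw [Nat.cast_sub (by omega), Nat.cast_one]
  have hpow : ∀ y : ℝ, Real.exp y ^ (N - 1) = Real.exp (((N : ℝ) - 1) * y) := by
    intro y
    rw [← Real.exp_nat_mul, hcast]
  have hlin : ∀ (a x : ℝ), HasDerivAt (fun y : ℝ => Real.exp (a * y)) (Real.exp (a * x) * a) x := by
    intro a x
    have h1 : HasDerivAt (fun y : ℝ => a * y) a x := by
      simpa using (hasDerivAt_id x).const_mul a
    exact h1.exp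
  have hP : ∀ x, HasDerivAt (Px N L) (Px' N L x) x := by
    intro x
    have h1 : HasDerivAt (fun y : ℝ => ph N L 1 (Real.exp y))
        (dph N L 1 (Real.exp x) * Real.exp x) x :=
      (hp 1 (Real.exp x)).comp x (Real.hasDerivAt_exp x)
    have h2 := (hlin c x).mul h1
    have h3 : Px' N L x = Real.exp (c * x) * c * ph N L 1 (Real.exp x) +
        Real.exp (c * x) * (dph N L 1 (Real.exp x) * Real.exp x) := by
      unfold Px' gx'
      rw [← hc]
      ring
    rw [h3]
    exact h2
  have hsplit : Px' N L = fun y => c * Px N L y +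
      Real.exp (-c * y) * (Real.exp y ^ (N - 1) * dph N L 1 (Real.exp y)) := by
    funext y
    have h1 : Real.exp (-c * y) * Real.exp y ^ (N - 1) = Real.exp (c * y) * Real.exp y := by
      rw [hpow, ← Real.exp_add, ← Real.exp_add]
      congr 1
      rw [hc]
      ring
    have h2 : Real.exp (-c * y) * (Real.exp y ^ (N - 1) * dph N L 1 (Real.exp y)) =
        Real.exp (c * y) * Real.exp y * dph N L 1 (Real.exp y) := by
      rw [← mul_assoc, h1]
    rw [h2]
    unfold Px' gx' Px gx
    rw [← hc]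
    ring
  refine ⟨hP, fun x => ?_, ?_, ?_, fun x hx => ?_, hd1⟩
  · have hx0 : (0 : ℝ) < Real.exp x := Real.exp_pos x
    have h1 : HasDerivAt (fun y : ℝ => Real.exp y ^ (N - 1) * dph N L 1 (Real.exp y))
        (Real.exp x ^ (N - 1) * (((1 : ℕ) * ((1 : ℕ) + N - 2) / Real.exp x ^ 2 - L) *
          ph N L 1 (Real.exp x)) * Real.exp x) x :=
      HasDerivAt.comp x (hq 1 (Real.exp x) hx0) (Real.hasDerivAt_exp x)
    have h2 := ((hP x).const_mul c).add ((hlin (-c) x).mul h1)
    rw [hsplit]
    have h3 : qx N L x * Px N L x = c * Px' N L x +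
        (Real.exp (-c * x) * -c * (Real.exp x ^ (N - 1) * dph N L 1 (Real.exp x)) +
          Real.exp (-c * x) * (Real.exp x ^ (N - 1) * (((1 : ℕ) * ((1 : ℕ) + N - 2) /
            Real.exp x ^ 2 - L) * ph N L 1 (Real.exp x)) * Real.exp x)) := by
      have h4 : Real.exp (-c * x) * Real.exp x ^ (N - 1) = Real.exp (c * x) * Real.exp x := by
        rw [hpow, ← Real.exp_add, ← Real.exp_add]
        congr 1
        rw [hc]
        ring
      have h5 : Real.exp (-c * x) * -c * (Real.exp x ^ (N - 1) * dph N L 1 (Real.exp x)) +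
          Real.exp (-c * x) * (Real.exp x ^ (N - 1) * (((1 : ℕ) * ((1 : ℕ) + N - 2) /
            Real.exp x ^ 2 - L) * ph N L 1 (Real.exp x)) * Real.exp x) =
          (Real.exp (-c * x) * Real.exp x ^ (N - 1)) * (-c * dph N L 1 (Real.exp x) +
            (((1 : ℕ) * ((1 : ℕ) + N - 2) / Real.exp x ^ 2 - L) * ph N L 1 (Real.exp x)) *
              Real.exp x) := by ring
      have h6 : Real.exp (2 * x) = Real.exp x ^ 2 := by
        rw [← Real.exp_nat_mul]
        norm_num
      rw [h5, h4]
      unfold qx Px' gx' Px gx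
      rw [← hc, h6, Nat.cast_one]
      have hN2 : (N : ℝ) = 2 * c + 2 := by
        rw [hc]
        ring
      rw [hN2]
      field_simp
      ring
    rw [h3]
    exact h2
  · unfold Px gx
    rw [Real.exp_zero, hp1, mul_zero]
  · unfold Px' gx'
    rw [mul_zero, Real.exp_zero, hp1]
    ring
  · unfold Px gx
    exact mul_pos (Real.exp_pos _) (hpos _ (Real.exp_pos x) (Real.exp_lt_one_iff.2 hx))

end Pool.Agent.H11.LNN
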